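import Mathlib

/-!
Odd covers of the square of the edge set of the complete graph `K_n`: definitions (those of
helper45's hand-in `QuarterAsymptotics`) and the passage to an identity over `ZMod 2`.
-/

set_option autoImplicit false

open Finset

namespace Pool.Agent.OddCover

/-- The edge set `E(A, B)` of the complete bipartite graph with sides `A` and `B`. -/
def biclique {n : ℕ} (A B : Finset (Fin n)) : Set (Sym2 (Fin n)) :=
  {e | ∃ x ∈ A, ∃ y ∈ B, e = s(x, y)}

/-- `P` is a product `E(A, B) × E(C, D)` of complete bipartite graphs, `A, B` disjoint and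
nonempty, `C, D` disjoint and nonempty. -/
def IsProduct {n : ℕ} (P : Set (Sym2 (Fin n) × Sym2 (Fin n))) : Prop :=
  ∃ A B C D : Finset (Fin n), A.Nonempty ∧ B.Nonempty ∧ Disjoint A B ∧
    C.Nonempty ∧ D.Nonempty ∧ Disjoint C D ∧ P = biclique A B ×ˢ biclique C D

/-- `P` is an odd cover of `E(K_n) × E(K_n)` with `m` members: every `P i` is a product of complete
bipartite graphs and every pair of edges of `K_n` lies in an odd number of the `P i`. -/
def IsOddCover (n m : ℕ) (P : Fin m → Set (Sym2 (Fin n) × Sym2 (Fin n))) : Prop :=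
  (∀ i, IsProduct (P i)) ∧
    ∀ e ∈ (⊤ : SimpleGraph (Fin n)).edgeSet, ∀ f ∈ (⊤ : SimpleGraph (Fin n)).edgeSet,
      Odd (Nat.card {i : Fin m // (e, f) ∈ P i})

/-- The least number of members of an odd cover of `E(K_n) × E(K_n)`. -/
noncomputable def oddCoverNumber (n : ℕ) : ℕ :=
  sInf {m : ℕ | ∃ P : Fin m → Set (Sym2 (Fin n) × Sym2 (Fin n)), IsOddCover n m P}

/-- indicator -/
def ind {n : ℕ} (A : Finset (Fin n)) (x : Fin n) : ZMod 2 := if x ∈ A then 1 else 0

lemma mem_biclique {n : ℕ} (A B : Finset (Fin n)) (x y : Fin n) :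
    s(x, y) ∈ biclique A B ↔ (x ∈ A ∧ y ∈ B) ∨ (y ∈ A ∧ x ∈ B) := by
  unfold biclique
  simp only [Set.mem_ofPred_eq, Sym2.eq_iff]
  constructor
  · rintro ⟨u, hu, v, hv, (⟨rfl, rfl⟩ | ⟨rfl, rfl⟩)⟩
    · exact Or.inl ⟨hu, hv⟩
    · exact Or.inr ⟨hu, hv⟩
  · rintro (⟨h1, h2⟩ | ⟨h1, h2⟩)
    · exact ⟨x, h1, y, h2, Or.inl ⟨rfl, rfl⟩⟩
    · exact ⟨y, h1, x, h2, Or.inr ⟨rfl, rfl⟩⟩

open Classical in
lemma ind_biclique {n : ℕ} (A B : Finset (Fin n)) (h : Disjoint A B) (x y : Fin n) :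
    (if s(x, y) ∈ biclique A B then (1 : ZMod 2) else 0)
      = ind A x * ind B y + ind B x * ind A y := by
  have hx : ¬ (x ∈ A ∧ x ∈ B) := fun hx => (Finset.disjoint_left.mp h) hx.1 hx.2
  have hy : ¬ (y ∈ A ∧ y ∈ B) := fun hy => (Finset.disjoint_left.mp h) hy.1 hy.2
  simp only [mem_biclique, ind]
  by_cases h1 : x ∈ A <;> by_cases h2 : x ∈ B <;> by_cases h3 : y ∈ A <;> by_cases h4 : y ∈ B <;>
    simp_all

open Classical in
/-- An odd cover gives an identity over `ZMod 2`. -/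
lemma sum_eq_one {n m : ℕ} {A B C D : Fin m → Finset (Fin n)}
    {P : Fin m → Set (Sym2 (Fin n) × Sym2 (Fin n))}
    (hP : ∀ i, P i = biclique (A i) (B i) ×ˢ biclique (C i) (D i))
    (hAB : ∀ i, Disjoint (A i) (B i)) (hCD : ∀ i, Disjoint (C i) (D i))
    (x y z w : Fin n) (h : Odd (Nat.card {i : Fin m // (s(x, y), s(z, w)) ∈ P i})) :
    ∑ i, (ind (A i) x * ind (B i) y + ind (B i) x * ind (A i) y) *
      (ind (C i) z * ind (D i) w + ind (D i) z * ind (C i) w) = 1 := by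
  have h1 : ((Nat.card {i : Fin m // (s(x, y), s(z, w)) ∈ P i} : ℕ) : ZMod 2) = 1 := by
    obtain ⟨k, hk⟩ := h
    rw [hk]; push_cast
    have : (2 : ZMod 2) = 0 := rfl
    rw [this]; simp
  rw [← h1, Nat.card_eq_fintype_card, Fintype.card_subtype, Finset.card_filter, Nat.cast_sum]
  refine Finset.sum_congr rfl fun i _ => ?_
  rw [← ind_biclique _ _ (hAB i), ← ind_biclique _ _ (hCD i), hP i]
  by_cases h1 : s(x, y) ∈ biclique (A i) (B i) <;> by_cases h2 : s(z, w) ∈ biclique (C i) (D i) <;>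
    simp [h1, h2]

lemma ind_mul_ind {n : ℕ} {A B : Finset (Fin n)} (h : Disjoint A B) (x : Fin n) :
    ind A x * ind B x = 0 := by
  have := fun hh => Finset.disjoint_left.mp h (show x ∈ A from hh)
  simp only [ind]
  by_cases h3 : x ∈ A <;> simp_all

end Pool.Agent.OddCover
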