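import Pool.Agent.OddCover.Defs

/-!
Lower bound `(k + 1) ^ 2` for the odd covers of the square of `E(K_n)`, `n = 2 k + 1`, `k` odd.
-/

set_option autoImplicit false

open Finset

namespace Pool.Agent.OddCover

variable {n m : ℕ}

/-- the matrix `J - I` -/
def K (n : ℕ) (x y : Fin n) : ZMod 2 := if x = y then 0 else 1

/-- The algebraic content of an odd cover. -/
structure Sys (n m : ℕ) (a b c d : Fin m → Fin n → ZMod 2) : Prop where
  hab : ∀ i x, a i x * b i x = 0
  hcd : ∀ i x, c i x * d i x = 0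
  h : ∀ x y z w, x ≠ y → z ≠ w → ∑ i, (a i x * b i y + b i x * a i y) *
      (c i z * d i w + d i z * c i w) = 1

lemma Sys.T {a b c d : Fin m → Fin n → ZMod 2} (S : Sys n m a b c d) (x y z w : Fin n) :
    ∑ i, (a i x * b i y + b i x * a i y) * (c i z * d i w + d i z * c i w) = K n x y * K n z w := by
  unfold K
  by_cases hxy : x = y
  · subst hxy
    simp only [if_true, zero_mul]
    refine Finset.sum_eq_zero fun i _ => ?_
    have : a i x * b i x + b i x * a i x = 0 := by
      rw [mul_comm (b i x), S.hab]; simp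
    rw [this, zero_mul]
  · by_cases hzw : z = w
    · subst hzw
      simp only [if_true, mul_zero]
      refine Finset.sum_eq_zero fun i _ => ?_
      have : c i z * d i z + d i z * c i z = 0 := by
        rw [mul_comm (d i z), S.hcd]; simp
      rw [this, mul_zero]
    · simp only [hxy, hzw, if_false, mul_one]
      exact S.h x y z w hxy hzw

lemma Sys.swap {a b c d : Fin m → Fin n → ZMod 2} (S : Sys n m a b c d) : Sys n m c d a b :=
  ⟨S.hcd, S.hab, fun x y z w hxy hzw => by
    rw [← S.h z w x y hzw hxy]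
    exact Finset.sum_congr rfl fun i _ => mul_comm _ _⟩

/-- ordered pairs -/
def prs (n : ℕ) : Finset (Fin n × Fin n) := Finset.univ.filter fun p => p.1 < p.2

lemma sum_pairs (f : Fin n → Fin n → ZMod 2) :
    ∑ x, ∑ y, f x y = (∑ p ∈ prs n, (f p.1 p.2 + f p.2 p.1)) + ∑ x, f x x := by
  have h0 : ∑ x, ∑ y, f x y = ∑ p : Fin n × Fin n, f p.1 p.2 := by
    rw [Fintype.sum_prod_type]
  have h1 : ∑ p : Fin n × Fin n, f p.1 p.2
      = (∑ p : Fin n × Fin n, if p.1 < p.2 then f p.1 p.2 else 0)
        + (∑ p : Fin n × Fin n, if p.2 < p.1 then f p.1 p.2 else 0)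
        + ∑ p : Fin n × Fin n, if p.1 = p.2 then f p.1 p.2 else 0 := by
    rw [← Finset.sum_add_distrib, ← Finset.sum_add_distrib]
    refine Finset.sum_congr rfl fun p _ => ?_
    rcases lt_trichotomy p.1 p.2 with h | h | h
    · simp [h, h.ne, not_lt.mpr h.le]
    · simp [h]
    · simp [h, h.ne', not_lt.mpr h.le]
  have h2 : (∑ p : Fin n × Fin n, if p.2 < p.1 then f p.1 p.2 else 0)
      = ∑ p : Fin n × Fin n, if p.1 < p.2 then f p.2 p.1 else 0 :=
    (Equiv.sum_comp (Equiv.prodComm (Fin n) (Fin n))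
      (fun p : Fin n × Fin n => if p.1 < p.2 then f p.2 p.1 else 0))
  have h3 : (∑ p : Fin n × Fin n, if p.1 = p.2 then f p.1 p.2 else 0) = ∑ x, f x x := by
    rw [Fintype.sum_prod_type]
    refine Finset.sum_congr rfl fun x _ => ?_
    simp
  rw [h0, h1, h2, h3, prs, Finset.sum_filter, ← Finset.sum_add_distrib]
  congr 1
  refine Finset.sum_congr rfl fun p _ => ?_
  by_cases h : p.1 < p.2 <;> simp [h]

/-- evaluation of the quadratic form of a product of two disjoint linear forms -/
lemma quad (c d y : Fin n → ZMod 2) (hcd : ∀ x, c x * d x = 0) :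
    (∑ z, y z * c z) * (∑ z, y z * d z)
      = ∑ p ∈ prs n, y p.1 * y p.2 * (c p.1 * d p.2 + d p.1 * c p.2) := by
  rw [Finset.sum_mul_sum, sum_pairs (fun z w => y z * c z * (y w * d w))]
  have : ∑ x, y x * c x * (y x * d x) = 0 := Finset.sum_eq_zero fun x _ => by
    have := hcd x
    linear_combination (y x * y x) * this
  rw [this, add_zero]
  refine Finset.sum_congr rfl fun p _ => by ring

lemma card_prs (n : ℕ) : (prs n).card * 2 = n * (n - 1) := by
  have h : (prs n).card = ∑ i ∈ Finset.range n, i := by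
    rw [prs, Finset.card_filter, Fintype.sum_prod_type_right, ← Fin.sum_univ_eq_sum_range]
    refine Finset.sum_congr rfl fun y _ => ?_
    rw [← Finset.card_filter]
    have : (Finset.univ.filter fun x : Fin n => x < y) = Finset.Iio y := by
      ext x; simp
    rw [this, Fin.card_Iio]
  rw [h, Finset.sum_range_id_mul_two]

lemma card_prs_odd {k : ℕ} (hk : k % 2 = 1) : (((prs (2 * k + 1)).card : ℕ) : ZMod 2) = 1 := by
  have h := card_prs (2 * k + 1)
  have h2 : (prs (2 * k + 1)).card = (2 * k + 1) * k := by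
    have : 2 * k + 1 - 1 = 2 * k := by omega
    rw [this] at h
    nlinarith
  rw [ZMod.natCast_eq_one_iff_odd, h2]
  exact (odd_two_mul_add_one k).mul (Nat.odd_iff.mpr hk)

/-- Quadratic identity. -/
lemma Sys.Q {a b c d : Fin m → Fin n → ZMod 2} (S : Sys n m a b c d) (x y : Fin n → ZMod 2)
    (w : Fin n) :
    ∑ i, ((∑ v, x v * a i v) * b i w + (∑ v, x v * b i v) * a i w) *
      ((∑ z, y z * c i z) * (∑ z, y z * d i z))
      = (∑ v, x v * K n v w) * ∑ p ∈ prs n, y p.1 * y p.2 * K n p.1 p.2 := by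
  have h1 : ∀ i, ((∑ v, x v * a i v) * b i w + (∑ v, x v * b i v) * a i w) *
      ((∑ z, y z * c i z) * (∑ z, y z * d i z))
      = ∑ v, ∑ p ∈ prs n, (x v * (y p.1 * y p.2)) * ((a i v * b i w + b i v * a i w) *
        (c i p.1 * d i p.2 + d i p.1 * c i p.2)) := by
    intro i
    rw [quad _ _ _ (S.hcd i)]
    have : (∑ v, x v * a i v) * b i w + (∑ v, x v * b i v) * a i w
        = ∑ v, x v * (a i v * b i w + b i v * a i w) := by
      rw [Finset.sum_mul, Finset.sum_mul, ← Finset.sum_add_distrib]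
      refine Finset.sum_congr rfl fun v _ => by ring
    rw [this, Finset.sum_mul_sum]
    refine Finset.sum_congr rfl fun v _ => Finset.sum_congr rfl fun p _ => by ring
  rw [Finset.sum_congr rfl fun i _ => h1 i, Finset.sum_comm, Finset.sum_mul_sum]
  refine Finset.sum_congr rfl fun v _ => ?_
  rw [Finset.sum_comm]
  refine Finset.sum_congr rfl fun p _ => ?_
  rw [← Finset.mul_sum, S.T]
  ring

/-- `T` with general weights on one side. -/
lemma Sys.Tw {a b c d : Fin m → Fin n → ZMod 2} (S : Sys n m a b c d) (M : Fin n → Fin n → ZMod 2)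
    (y w : Fin n) :
    ∑ i, ((∑ x, ∑ z, M x z * (a i x * c i z)) * (b i y * d i w)
      + (∑ x, ∑ z, M x z * (a i x * d i z)) * (b i y * c i w)
      + (∑ x, ∑ z, M x z * (b i x * c i z)) * (a i y * d i w)
      + (∑ x, ∑ z, M x z * (b i x * d i z)) * (a i y * c i w))
      = ∑ x, ∑ z, M x z * (K n x y * K n z w) := by
  have h1 : ∀ i, ((∑ x, ∑ z, M x z * (a i x * c i z)) * (b i y * d i w)
      + (∑ x, ∑ z, M x z * (a i x * d i z)) * (b i y * c i w)
      + (∑ x, ∑ z, M x z * (b i x * c i z)) * (a i y * d i w)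
      + (∑ x, ∑ z, M x z * (b i x * d i z)) * (a i y * c i w))
      = ∑ x, ∑ z, M x z * ((a i x * b i y + b i x * a i y) * (c i z * d i w + d i z * c i w)) := by
    intro i
    simp only [Finset.sum_mul, ← Finset.sum_add_distrib]
    refine Finset.sum_congr rfl fun x _ => Finset.sum_congr rfl fun z _ => by ring
  rw [Finset.sum_congr rfl fun i _ => h1 i, Finset.sum_comm]
  refine Finset.sum_congr rfl fun x _ => ?_
  rw [Finset.sum_comm]
  refine Finset.sum_congr rfl fun z _ => ?_
  rw [← Finset.mul_sum, S.T]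

lemma z2_self (p : ZMod 2) : p + p = 0 := by revert p; decide

lemma z2_eq {p q : ZMod 2} (h : p + q = 0) : p = q := by revert h p q; decide

/-- sums against `K` -/
lemma sum_K (f : Fin n → ZMod 2) (y : Fin n) : ∑ x, f x * K n x y = (∑ x, f x) + f y := by
  have : ∀ x, f x * K n x y = f x - if x = y then f x else 0 := by
    intro x; unfold K; by_cases h : x = y <;> simp [h]
  rw [Finset.sum_congr rfl fun x _ => this x, Finset.sum_sub_distrib]
  simp only [Finset.sum_ite_eq', Finset.mem_univ, if_true]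
  rw [sub_eq_add_neg, ZMod.neg_eq_self_mod_two]

/-- the local consequence of the kernel equations -/
lemma z2_key (α β γ δ a b c d : ZMod 2) (h1 : α * c + a * γ = 0) (h2 : α * d + a * δ = 0)
    (h3 : β * c + b * γ = 0) (h4 : β * d + b * δ = 0) :
    a * (γ * δ) = α * (c * d) ∧ b * (γ * δ) = β * (c * d) := by
  revert h1 h2 h3 h4 α β γ δ a b c d; decide

/-- The four kernel equations for `M x z = X x + Y z`. -/
structure KerEq (a b c d : Fin m → Fin n → ZMod 2) (X Y : Fin n → ZMod 2) : Prop where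
  h1 : ∀ i, (∑ v, a i v) * (∑ z, Y z * c i z) + (∑ v, X v * a i v) * (∑ z, c i z) = 0
  h2 : ∀ i, (∑ v, a i v) * (∑ z, Y z * d i z) + (∑ v, X v * a i v) * (∑ z, d i z) = 0
  h3 : ∀ i, (∑ v, b i v) * (∑ z, Y z * c i z) + (∑ v, X v * b i v) * (∑ z, c i z) = 0
  h4 : ∀ i, (∑ v, b i v) * (∑ z, Y z * d i z) + (∑ v, X v * b i v) * (∑ z, d i z) = 0

lemma KerEq.swap {a b c d : Fin m → Fin n → ZMod 2} {X Y : Fin n → ZMod 2}
    (H : KerEq a b c d X Y) : KerEq c d a b Y X :=
  ⟨fun i => by rw [← H.h1 i]; ring, fun i => by rw [← H.h3 i]; ring,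
    fun i => by rw [← H.h2 i]; ring, fun i => by rw [← H.h4 i]; ring⟩

lemma two_mul_add_z2 (k : ℕ) : ((2 * k + 1 : ℕ) : ZMod 2) = 1 := by
  push_cast
  have : (2 : ZMod 2) = 0 := rfl
  rw [this]; simp

/-- the weight of a kernel element is constant -/
lemma KerEq.const {k : ℕ} (hk : k % 2 = 1) {a b c d : Fin m → Fin (2 * k + 1) → ZMod 2}
    (S : Sys (2 * k + 1) m a b c d) {X Y : Fin (2 * k + 1) → ZMod 2}
    (H : KerEq a b c d X Y) (w : Fin (2 * k + 1)) : X w = ∑ v, X v := by
  have e1 := S.Q X (fun _ => 1) w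
  have e2 := S.Q (fun _ => 1) Y w
  simp only [one_mul] at e1 e2
  have hK : ∀ p ∈ prs (2 * k + 1), K (2 * k + 1) p.1 p.2 = 1 := by
    intro p hp
    simp only [prs, Finset.mem_filter, Finset.mem_univ, true_and] at hp
    simp [K, hp.ne]
  rw [Finset.sum_congr rfl hK, Finset.sum_const, nsmul_eq_mul, mul_one, card_prs_odd hk, mul_one,
    sum_K] at e1
  have hs : ∑ v, K (2 * k + 1) v w = 0 := by
    have := sum_K (fun _ => (1 : ZMod 2)) w
    simp only [one_mul, Finset.sum_const, Finset.card_univ, Fintype.card_fin, nsmul_eq_mul,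
      mul_one, two_mul_add_z2] at this
    rw [this]; decide
  rw [hs, zero_mul] at e2
  have e3 : ∀ i, ((∑ v, X v * a i v) * b i w + (∑ v, X v * b i v) * a i w) *
      ((∑ z, c i z) * (∑ z, d i z))
      = ((∑ v, a i v) * b i w + (∑ v, b i v) * a i w) *
      ((∑ z, Y z * c i z) * (∑ z, Y z * d i z)) := by
    intro i
    obtain ⟨p, q⟩ := z2_key _ _ _ _ _ _ _ _ (H.h1 i) (H.h2 i) (H.h3 i) (H.h4 i)
    linear_combination (b i w) * p + (a i w) * q
  rw [Finset.sum_congr rfl fun i _ => e3 i, e2] at e1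
  exact z2_eq (by rw [add_comm]; exact e1.symm)

/-- Linear independence of the rows. -/
lemma Sys.indep {k : ℕ} (hk : k % 2 = 1) {a b c d : Fin m → Fin (2 * k + 1) → ZMod 2}
    (S : Sys (2 * k + 1) m a b c d) (M : Fin (2 * k + 1) → Fin (2 * k + 1) → ZMod 2)
    (h1 : ∀ i, ∑ x, ∑ z, M x z * (a i x * c i z) = 0)
    (h2 : ∀ i, ∑ x, ∑ z, M x z * (a i x * d i z) = 0)
    (h3 : ∀ i, ∑ x, ∑ z, M x z * (b i x * c i z) = 0)
    (h4 : ∀ i, ∑ x, ∑ z, M x z * (b i x * d i z) = 0) : ∀ x z, M x z = 0 := by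
  have hM : ∀ y w, M y w = (∑ x, ∑ z, M x z + ∑ z, M y z) + ∑ x, M x w := by
    intro y w
    have := S.Tw M y w
    simp only [h1, h2, h3, h4, zero_mul, add_zero, Finset.sum_const_zero] at this
    have e : ∀ x, ∑ z, M x z * (K (2 * k + 1) x y * K (2 * k + 1) z w)
        = ((∑ z, M x z) + M x w) * K (2 * k + 1) x y := by
      intro x
      rw [← sum_K, Finset.sum_mul]
      refine Finset.sum_congr rfl fun z _ => by ring
    rw [Finset.sum_congr rfl fun x _ => e x, sum_K, Finset.sum_add_distrib] at this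
    apply z2_eq
    rw [← this.symm]
    ring
  set X : Fin (2 * k + 1) → ZMod 2 := fun y => ∑ x, ∑ z, M x z + ∑ z, M y z with hX
  set Y : Fin (2 * k + 1) → ZMod 2 := fun w => ∑ x, M x w with hY
  have hM' : ∀ y w, M y w = X y + Y w := hM
  have key : ∀ f g : Fin (2 * k + 1) → ZMod 2, ∑ x, ∑ z, M x z * (f x * g z)
      = (∑ v, f v) * (∑ z, Y z * g z) + (∑ v, X v * f v) * (∑ z, g z) := by
    intro f g
    rw [Finset.sum_mul_sum, Finset.sum_mul_sum, ← Finset.sum_add_distrib]
    refine Finset.sum_congr rfl fun x _ => ?_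
    rw [← Finset.sum_add_distrib]
    refine Finset.sum_congr rfl fun z _ => ?_
    rw [hM']; ring
  have H : KerEq a b c d X Y :=
    ⟨fun i => by rw [← key]; exact h1 i, fun i => by rw [← key]; exact h2 i,
      fun i => by rw [← key]; exact h3 i, fun i => by rw [← key]; exact h4 i⟩
  have cX := H.const hk S
  have cY := H.swap.const hk S.swap
  have hc : ∀ y w, M y w = (∑ v, X v) + ∑ v, Y v := fun y w => by rw [hM', cX, cY]
  by_contra hne
  obtain ⟨x0, z0, hxz⟩ : ∃ x0 z0, M x0 z0 ≠ 0 := by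
    by_contra hh
    exact hne fun x z => by_contra fun h' => hh ⟨x, z, h'⟩
  have hs : (∑ v, X v) + ∑ v, Y v = 1 := by
    rw [hc] at hxz
    revert hxz
    generalize (∑ v, X v) + ∑ v, Y v = s
    revert s; decide
  have f1 : ∀ i, (∑ x, a i x) * (∑ z, c i z) = 0 := by
    intro i; rw [← h1 i, Finset.sum_mul_sum]
    refine Finset.sum_congr rfl fun x _ => Finset.sum_congr rfl fun z _ => ?_
    rw [hc, hs]; ring
  have g1 : ∀ i, (∑ x, a i x) * (∑ x, b i x)
      = ∑ p ∈ prs (2 * k + 1), (a i p.1 * b i p.2 + b i p.1 * a i p.2) := by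
    intro i
    have := quad (a i) (b i) (fun _ => 1) (S.hab i)
    simpa only [one_mul] using this
  have g2 : ∀ i, (∑ x, c i x) * (∑ x, d i x)
      = ∑ p ∈ prs (2 * k + 1), (c i p.1 * d i p.2 + d i p.1 * c i p.2) := by
    intro i
    have := quad (c i) (d i) (fun _ => 1) (S.hcd i)
    simpa only [one_mul] using this
  have e1 : ∑ i, ((∑ x, a i x) * (∑ x, b i x)) * ((∑ x, c i x) * (∑ x, d i x)) = 0 :=
    Finset.sum_eq_zero fun i _ => by linear_combination (∑ x, b i x) * (∑ x, d i x) * f1 i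
  have e2 : ∑ i, ((∑ x, a i x) * (∑ x, b i x)) * ((∑ x, c i x) * (∑ x, d i x)) = 1 := by
    have : ∀ i, ((∑ x, a i x) * (∑ x, b i x)) * ((∑ x, c i x) * (∑ x, d i x))
        = ∑ p ∈ prs (2 * k + 1), ∑ q ∈ prs (2 * k + 1),
          ((a i p.1 * b i p.2 + b i p.1 * a i p.2) * (c i q.1 * d i q.2 + d i q.1 * c i q.2)) := by
      intro i; rw [g1, g2, Finset.sum_mul_sum]
    rw [Finset.sum_congr rfl fun i _ => this i, Finset.sum_comm]
    have e3 : ∀ p ∈ prs (2 * k + 1), ∑ i, ∑ q ∈ prs (2 * k + 1),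
          ((a i p.1 * b i p.2 + b i p.1 * a i p.2) * (c i q.1 * d i q.2 + d i q.1 * c i q.2))
        = 1 := by
      intro p hp
      simp only [prs, Finset.mem_filter, Finset.mem_univ, true_and] at hp
      rw [Finset.sum_comm]
      have e4 : ∀ q ∈ prs (2 * k + 1), ∑ i,
          ((a i p.1 * b i p.2 + b i p.1 * a i p.2) * (c i q.1 * d i q.2 + d i q.1 * c i q.2))
          = 1 := by
        intro q hq
        simp only [prs, Finset.mem_filter, Finset.mem_univ, true_and] at hq
        exact S.h _ _ _ _ hp.ne hq.ne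
      rw [Finset.sum_congr rfl e4, Finset.sum_const, nsmul_eq_mul, mul_one, card_prs_odd hk]
    rw [Finset.sum_congr rfl e3, Finset.sum_const, nsmul_eq_mul, mul_one, card_prs_odd hk]
  rw [e1] at e2
  exact absurd e2 (by decide)

lemma rank_of_injective {ι κ : Type*} [Fintype ι] [Fintype κ] [DecidableEq κ]
    (A : Matrix ι κ (ZMod 2)) (h : ∀ v, A.mulVec v = 0 → v = 0) : A.rank = Fintype.card κ := by
  have hinj : Function.Injective A.mulVecLin := by
    rw [injective_iff_map_eq_zero]
    intro v hv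
    exact h v (by simpa using hv)
  rw [Matrix.rank, LinearMap.finrank_range_of_inj hinj, Module.finrank_fintype_fun_eq_card]

theorem Sys.lower {k : ℕ} (hk : k % 2 = 1) {a b c d : Fin m → Fin (2 * k + 1) → ZMod 2}
    (S : Sys (2 * k + 1) m a b c d) : (k + 1) ^ 2 ≤ m := by
  let U : Matrix (Fin (2 * k + 1) × Fin (2 * k + 1)) (Fin m × Bool × Bool) (ZMod 2) := fun p q =>
    (bif q.2.1 then a q.1 p.1 else b q.1 p.1) * (bif q.2.2 then c q.1 p.2 else d q.1 p.2)
  let W : Matrix (Fin m × Bool × Bool) (Fin (2 * k + 1) × Fin (2 * k + 1)) (ZMod 2) := fun q p =>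
    (bif q.2.1 then b q.1 p.1 else a q.1 p.1) * (bif q.2.2 then d q.1 p.2 else c q.1 p.2)
  let v0 : Fin (2 * k + 1) := 0
  let N : Matrix (Fin (2 * k + 1) × Fin (2 * k + 1))
      (Fin (2 * k + 1) ⊕ {x : Fin (2 * k + 1) // x ≠ v0}) (ZMod 2) := fun p s =>
    Sum.elim (fun z => if p.2 = z then 1 else 0) (fun x => if p.1 = x.1 then 1 else 0) s
  have hUT : U.transpose.rank = Fintype.card (Fin (2 * k + 1) × Fin (2 * k + 1)) := by
    refine rank_of_injective _ fun v hv => ?_
    have hh : ∀ (i : Fin m) (s t : Bool), ∑ x, ∑ z, v (x, z) *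
        ((bif s then a i x else b i x) * (bif t then c i z else d i z)) = 0 := by
      intro i s t
      have := congrFun hv (i, s, t)
      simp only [Matrix.mulVec, dotProduct, Matrix.transpose_apply, Pi.zero_apply] at this
      rw [← this, Fintype.sum_prod_type]
      refine Finset.sum_congr rfl fun x _ => Finset.sum_congr rfl fun z _ => mul_comm _ _
    have := S.indep hk (fun x z => v (x, z)) (fun i => hh i true true) (fun i => hh i true false)
      (fun i => hh i false true) (fun i => hh i false false)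
    funext p
    exact this p.1 p.2
  have hW : ∀ v : Fin (2 * k + 1) × Fin (2 * k + 1) → ZMod 2, W.mulVec v = 0 → v = 0 := by
    intro v hv
    have hh : ∀ (i : Fin m) (s t : Bool), ∑ x, ∑ z, v (x, z) *
        ((bif s then b i x else a i x) * (bif t then d i z else c i z)) = 0 := by
      intro i s t
      have := congrFun hv (i, s, t)
      simp only [Matrix.mulVec, dotProduct, Pi.zero_apply] at this
      rw [← this, Fintype.sum_prod_type]
      refine Finset.sum_congr rfl fun x _ => Finset.sum_congr rfl fun z _ => mul_comm _ _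
    have := S.indep hk (fun x z => v (x, z)) (fun i => hh i false false) (fun i => hh i false true)
      (fun i => hh i true false) (fun i => hh i true true)
    funext p
    exact this p.1 p.2
  have hN : ∀ v, N.mulVec v = 0 → v = 0 := by
    intro v hv
    have h1 : ∀ z, v (Sum.inl z) = 0 := by
      intro z
      have := congrFun hv (v0, z)
      simp only [Matrix.mulVec, dotProduct, Pi.zero_apply, Fintype.sum_sum_type, N,
        Sum.elim_inl, Sum.elim_inr] at this
      have h2 : ∑ x : {x : Fin (2 * k + 1) // x ≠ v0}, (if v0 = x.1 then (1 : ZMod 2) else 0)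
          * v (Sum.inr x) = 0 := Finset.sum_eq_zero fun x _ => by simp [x.2.symm]
      rw [h2, add_zero] at this
      simpa using this
    have h2 : ∀ x, v (Sum.inr x) = 0 := by
      intro x
      have := congrFun hv (x.1, v0)
      simp only [Matrix.mulVec, dotProduct, Pi.zero_apply, Fintype.sum_sum_type, N,
        Sum.elim_inl, Sum.elim_inr, h1, mul_zero, Finset.sum_const_zero, zero_add] at this
      have h3 : ∀ y : {x : Fin (2 * k + 1) // x ≠ v0}, (if x.1 = y.1 then (1 : ZMod 2) else 0)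
          * v (Sum.inr y) = if x = y then v (Sum.inr y) else 0 := by
        intro y
        by_cases h4 : x = y
        · simp [h4]
        · have : ¬ x.1 = y.1 := fun h5 => h4 (Subtype.ext h5)
          simp [h4, this]
      rw [Finset.sum_congr rfl fun y _ => h3 y] at this
      simpa using this
    funext s
    rcases s with z | x
    · exact h1 z
    · exact h2 x
  have hWN : (W * N).rank = Fintype.card (Fin (2 * k + 1) ⊕ {x : Fin (2 * k + 1) // x ≠ v0}) := by
    refine rank_of_injective _ fun v hv => ?_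
    rw [← Matrix.mulVec_mulVec] at hv
    exact hN v (hW _ hv)
  have hUW : ∀ p q, (U * W) p q = K (2 * k + 1) p.1 q.1 * K (2 * k + 1) p.2 q.2 := by
    rintro ⟨x, z⟩ ⟨y, w⟩
    rw [Matrix.mul_apply, Fintype.sum_prod_type, ← S.T]
    refine Finset.sum_congr rfl fun i _ => ?_
    rw [Fintype.sum_prod_type]
    simp only [Fintype.sum_bool, U, W, cond_true, cond_false]
    ring
  have hK0 : ∀ x, ∑ y, K (2 * k + 1) x y = 0 := by
    intro x
    have := sum_K (fun _ => (1 : ZMod 2)) x
    simp only [one_mul, Finset.sum_const, Finset.card_univ, Fintype.card_fin, nsmul_eq_mul,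
      mul_one, two_mul_add_z2] at this
    have h2 : ∀ y, K (2 * k + 1) x y = K (2 * k + 1) y x := by
      intro y; unfold K; by_cases h : x = y
      · simp [h]
      · have : ¬ y = x := fun h' => h h'.symm
        simp [h, this]
    rw [Finset.sum_congr rfl fun y _ => h2 y, this]; decide
  have hzero : U * (W * N) = 0 := by
    rw [← Matrix.mul_assoc]
    ext p s
    rw [Matrix.mul_apply, Matrix.zero_apply, Fintype.sum_prod_type]
    simp only [hUW]
    rcases s with z | x
    · rw [Finset.sum_comm]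
      have : ∀ w, ∑ y, K (2 * k + 1) p.1 y * K (2 * k + 1) p.2 w * N (y, w) (Sum.inl z) = 0 := by
        intro w
        have hn : ∀ y, N (y, w) (Sum.inl z) = (if w = z then 1 else 0 : ZMod 2) := fun _ => rfl
        simp only [hn]
        rw [← Finset.sum_mul, ← Finset.sum_mul, hK0, zero_mul, zero_mul]
      exact Finset.sum_eq_zero fun w _ => this w
    · have : ∀ y, ∑ w, K (2 * k + 1) p.1 y * K (2 * k + 1) p.2 w * N (y, w) (Sum.inr x) = 0 := by
        intro y
        have hn : ∀ w, N (y, w) (Sum.inr x) = (if y = x.1 then 1 else 0 : ZMod 2) := fun _ => rfl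
        simp only [hn]
        rw [← Finset.sum_mul, ← Finset.mul_sum, hK0, mul_zero, zero_mul]
      exact Finset.sum_eq_zero fun y _ => this y
  have hrank := Matrix.rank_add_rank_le_card_of_mul_eq_zero hzero
  rw [← Matrix.rank_transpose U, hUT, hWN] at hrank
  simp only [Fintype.card_prod, Fintype.card_fin, Fintype.card_bool, Fintype.card_sum,
    Fintype.card_subtype_compl, Fintype.card_unique] at hrank
  have e1 : 2 * k + 1 - 1 = 2 * k := by omega
  rw [e1] at hrank
  nlinarith

/-- `(k + 1) ^ 2 ≤ m` for an odd cover of the square of `E(K_n)`, `n = 2 k + 1`, `k` odd. -/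
theorem lower {k : ℕ} (hk : k % 2 = 1)
    {P : Fin m → Set (Sym2 (Fin (2 * k + 1)) × Sym2 (Fin (2 * k + 1)))}
    (h : IsOddCover (2 * k + 1) m P) : (k + 1) ^ 2 ≤ m := by
  obtain ⟨h1, h2⟩ := h
  choose A B C D hA hB hAB hC hD hCD hP using h1
  refine Sys.lower hk (a := fun i x => ind (A i) x) (b := fun i x => ind (B i) x)
    (c := fun i x => ind (C i) x) (d := fun i x => ind (D i) x) ⟨?_, ?_, ?_⟩
  · exact fun i x => ind_mul_ind (hAB i) x
  · exact fun i x => ind_mul_ind (hCD i) x
  · intro x y z w hxy hzw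
    apply sum_eq_one hP hAB hCD
    apply h2
    · simp only [SimpleGraph.mem_edgeSet, SimpleGraph.top_adj, ne_eq]
      exact hxy
    · simp only [SimpleGraph.mem_edgeSet, SimpleGraph.top_adj, ne_eq]
      exact hzw

end Pool.Agent.OddCover
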