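import Pool.Agent.OddCover.Defs

/-!
Odd covers of the square of `E(K_n)`: the rank bound `⌊n/2⌋ ^ 2` (plus one for odd `n`), from the
hand-in `QuarterAsymptotics` of helper45.
-/

set_option autoImplicit false

open Finset

namespace Pool.Agent.OddCover

namespace Gen

section algebra

variable {X : Type*} [Fintype X] [DecidableEq X]

/-- the matrix `J - I` -/
def K (X : Type*) [DecidableEq X] : Matrix X X (ZMod 2) := fun x y => if x = y then 0 else 1

lemma K_mul_K (k : ℕ) (hX : Fintype.card X = 2 * k) : K X * K X = 1 := by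
  ext x y
  rw [Matrix.mul_apply]
  have h0 : ∀ u, K X x u * K X u y = (if x ≠ u ∧ u ≠ y then (1 : ZMod 2) else 0) := by
    intro u
    unfold K
    by_cases h1 : x = u <;> by_cases h2 : u = y <;> simp [h1, h2]
  simp_rw [h0]
  rw [Finset.sum_boole]
  by_cases hxy : x = y
  · subst hxy
    have : (Finset.univ.filter fun u => x ≠ u ∧ u ≠ x) = Finset.univ.erase x := by
      ext u; simp [eq_comm]
    rw [this, Finset.card_erase_of_mem (Finset.mem_univ _), Finset.card_univ, hX,
      Matrix.one_apply_eq]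
    have hpos : 0 < Fintype.card X := Fintype.card_pos_iff.mpr ⟨x⟩
    obtain ⟨j, rfl⟩ : ∃ j, k = j + 1 := ⟨k - 1, by omega⟩
    have : 2 * (j + 1) - 1 = 2 * j + 1 := by omega
    rw [this]; push_cast
    have : (2 : ZMod 2) = 0 := rfl
    rw [this]; simp
  · have : (Finset.univ.filter fun u => x ≠ u ∧ u ≠ y) = (Finset.univ.erase x).erase y := by
      ext u; simp [eq_comm, and_comm]
    rw [this, Finset.card_erase_of_mem, Finset.card_erase_of_mem (Finset.mem_univ _),
      Finset.card_univ, hX, Matrix.one_apply_ne hxy]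
    · have hpos : 0 < Fintype.card X := Fintype.card_pos_iff.mpr ⟨x⟩
      obtain ⟨j, rfl⟩ : ∃ j, k = j + 1 := ⟨k - 1, by omega⟩
      have : 2 * (j + 1) - 1 - 1 = 2 * j := by omega
      rw [this]; push_cast
      have : (2 : ZMod 2) = 0 := rfl
      rw [this]; simp
    · simp [Ne.symm hxy]

/-- left factor -/
def U {m : ℕ} (a b c d : Fin m → X → ZMod 2) :
    Matrix (X × X) (Fin m × Bool × Bool) (ZMod 2) :=
  fun p q => (bif q.2.1 then a q.1 p.1 else b q.1 p.1) * (bif q.2.2 then c q.1 p.2 else d q.1 p.2)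

/-- right factor -/
def W {m : ℕ} (a b c d : Fin m → X → ZMod 2) :
    Matrix (Fin m × Bool × Bool) (X × X) (ZMod 2) :=
  fun q p => (bif q.2.1 then b q.1 p.1 else a q.1 p.1) * (bif q.2.2 then d q.1 p.2 else c q.1 p.2)

omit [Fintype X] in
lemma U_mul_W {m : ℕ} (a b c d : Fin m → X → ZMod 2)
    (h : ∀ x y z w, x ≠ y → z ≠ w → ∑ i, (a i x * b i y + b i x * a i y) *
      (c i z * d i w + d i z * c i w) = 1)
    (hab : ∀ i x, a i x * b i x = 0) (hcd : ∀ i x, c i x * d i x = 0) :
    U a b c d * W a b c d = Matrix.kroneckerMap (· * ·) (K X) (K X) := by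
  ext ⟨x, z⟩ ⟨y, w⟩
  rw [Matrix.mul_apply, Matrix.kroneckerMap_apply, Fintype.sum_prod_type]
  have h1 : ∀ i : Fin m, ∑ q : Bool × Bool, U a b c d (x, z) (i, q) * W a b c d (i, q) (y, w)
      = (a i x * b i y + b i x * a i y) * (c i z * d i w + d i z * c i w) := by
    intro i
    rw [Fintype.sum_prod_type]
    simp only [Fintype.sum_bool, U, W, cond_true, cond_false]
    ring
  rw [Finset.sum_congr rfl fun i _ => h1 i]
  unfold K
  by_cases hxy : x = y
  · subst hxy
    simp only [if_true, zero_mul]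
    refine Finset.sum_eq_zero fun i _ => ?_
    have : a i x * b i x + b i x * a i x = 0 := by
      rw [mul_comm (b i x), hab]; simp
    rw [this, zero_mul]
  · by_cases hzw : z = w
    · subst hzw
      simp only [if_true, mul_zero]
      refine Finset.sum_eq_zero fun i _ => ?_
      have : c i z * d i z + d i z * c i z = 0 := by
        rw [mul_comm (d i z), hcd]; simp
      rw [this, mul_zero]
    · simp only [hxy, hzw, if_false, mul_one]
      exact h x y z w hxy hzw

lemma KK_mul_KK (k : ℕ) (hX : Fintype.card X = 2 * k) :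
    Matrix.kroneckerMap (· * ·) (K X) (K X) * Matrix.kroneckerMap (· * ·) (K X) (K X) = 1 := by
  have := (Matrix.mul_kronecker_mul (K X) (K X) (K X) (K X)).symm
  rw [K_mul_K k hX, Matrix.one_kronecker_one] at this
  exact this

lemma sq_le {m : ℕ} (a b c d : Fin m → X → ZMod 2) (k : ℕ) (hX : Fintype.card X = 2 * k)
    (h : ∀ x y z w, x ≠ y → z ≠ w → ∑ i, (a i x * b i y + b i x * a i y) *
      (c i z * d i w + d i z * c i w) = 1)
    (hab : ∀ i x, a i x * b i x = 0) (hcd : ∀ i x, c i x * d i x = 0) : k ^ 2 ≤ m := by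
  have h1 := U_mul_W a b c d h hab hcd
  have h2 : (Matrix.kroneckerMap (· * ·) (K X) (K X)).rank = Fintype.card (X × X) := by
    apply Matrix.rank_of_isUnit
    exact IsUnit.of_mul_eq_one _ (KK_mul_KK k hX)
  have h3 : (U a b c d * W a b c d).rank ≤ Fintype.card (Fin m × Bool × Bool) :=
    (Matrix.rank_mul_le_left _ _).trans (Matrix.rank_le_card_width _)
  rw [h1, h2] at h3
  simp only [Fintype.card_prod, hX, Fintype.card_fin, Fintype.card_bool] at h3
  nlinarith

/-- In the extremal case all sides are odd. -/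
lemma odd_of_eq {m : ℕ} (a b c d : Fin m → X → ZMod 2) (k : ℕ) (hX : Fintype.card X = 2 * k)
    (h : ∀ x y z w, x ≠ y → z ≠ w → ∑ i, (a i x * b i y + b i x * a i y) *
      (c i z * d i w + d i z * c i w) = 1)
    (hab : ∀ i x, a i x * b i x = 0) (hcd : ∀ i x, c i x * d i x = 0) (hm : m = k ^ 2)
    (i : Fin m) : ∑ x, a i x = 1 := by
  have h1 := U_mul_W a b c d h hab hcd
  set M := Matrix.kroneckerMap (· * ·) (K X) (K X) with hM
  have h2 : U a b c d * (W a b c d * M) = 1 := by
    rw [← Matrix.mul_assoc, h1]; exact KK_mul_KK k hX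
  have hcard : Fintype.card (X × X) = Fintype.card (Fin m × Bool × Bool) := by
    simp only [Fintype.card_prod, hX, Fintype.card_fin, Fintype.card_bool, hm]; ring
  have h3 : (W a b c d * M) * U a b c d = 1 :=
    (Matrix.mul_eq_one_comm_of_card_eq _ _ _ hcard).mp h2
  have h4 := congrFun (congrFun h3 (i, true, true)) (i, true, true)
  rw [Matrix.one_apply_eq, Matrix.mul_apply] at h4
  have h5 : ∀ p : X × X, (W a b c d * M) (i, true, true) p * U a b c d p (i, true, true)
      = ((∑ y, b i y * K X y p.1) * a i p.1) * ((∑ w, d i w * K X w p.2) * c i p.2) := by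
    rintro ⟨x, z⟩
    rw [Matrix.mul_apply, Fintype.sum_prod_type]
    simp only [W, U, cond_true, hM, Matrix.kroneckerMap_apply]
    have : ∑ y, ∑ w, b i y * d i w * (K X y x * K X w z)
        = (∑ y, b i y * K X y x) * (∑ w, d i w * K X w z) := by
      rw [Finset.sum_mul_sum]
      refine Finset.sum_congr rfl fun y _ => Finset.sum_congr rfl fun w _ => by ring
    rw [this]; ring
  rw [Finset.sum_congr rfl fun p _ => h5 p, Fintype.sum_prod_type] at h4
  have h6 : (∑ x, (∑ y, b i y * K X y x) * a i x) * (∑ z, (∑ w, d i w * K X w z) * c i z) = 1 := by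
    rw [Finset.sum_mul_sum]; exact h4
  have h7 : ∑ x, (∑ y, b i y * K X y x) * a i x = (∑ y, b i y) * (∑ x, a i x) := by
    have e1 : ∀ x, (∑ y, b i y * K X y x) = (∑ y, b i y) - b i x := by
      intro x
      have : ∀ y, b i y * K X y x = b i y - (if y = x then b i y else 0) := by
        intro y; unfold K; by_cases hyx : y = x <;> simp [hyx]
      rw [Finset.sum_congr rfl fun y _ => this y, Finset.sum_sub_distrib]
      simp
    have e2 : ∀ x, (∑ y, b i y * K X y x) * a i x = (∑ y, b i y) * a i x := by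
      intro x
      rw [e1, sub_mul, mul_comm (b i x), hab, sub_zero]
    rw [Finset.sum_congr rfl fun x _ => e2 x, ← Finset.mul_sum]
  rw [h7] at h6
  generalize (∑ y, b i y) = p at h6
  generalize (∑ x, a i x) = q at h6 ⊢
  generalize (∑ z, (∑ w, d i w * K X w z) * c i z) = r at h6
  revert h6 p q r
  decide

end algebra

/-! ### Lower bound -/

lemma lower_even {n m k : ℕ} (hk : 2 * k ≤ n) {P : Fin m → Set (Sym2 (Fin n) × Sym2 (Fin n))}
    (h : IsOddCover n m P) : k ^ 2 ≤ m := by
  obtain ⟨h1, h2⟩ := h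
  choose A B C D hA hB hAB hC hD hCD hP using h1
  refine sq_le (X := Fin (2 * k)) (fun i x => ind (A i) (Fin.castLE hk x))
    (fun i x => ind (B i) (Fin.castLE hk x)) (fun i x => ind (C i) (Fin.castLE hk x))
    (fun i x => ind (D i) (Fin.castLE hk x)) k (by simp) ?_ ?_ ?_
  · intro x y z w hxy hzw
    apply sum_eq_one hP hAB hCD
    apply h2
    · simp only [SimpleGraph.mem_edgeSet, SimpleGraph.top_adj, ne_eq]
      exact fun h => hxy (Fin.castLE_injective hk h)
    · simp only [SimpleGraph.mem_edgeSet, SimpleGraph.top_adj, ne_eq]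
      exact fun h => hzw (Fin.castLE_injective hk h)
  · intro i x
    have := fun hh => Finset.disjoint_left.mp (hAB i) (show Fin.castLE hk x ∈ A i from hh)
    simp only [ind]
    by_cases h3 : Fin.castLE hk x ∈ A i <;> simp_all
  · intro i x
    have := fun hh => Finset.disjoint_left.mp (hCD i) (show Fin.castLE hk x ∈ C i from hh)
    simp only [ind]
    by_cases h3 : Fin.castLE hk x ∈ C i <;> simp_all

lemma lower_odd {m k : ℕ} (hk : 1 ≤ k)
    {P : Fin m → Set (Sym2 (Fin (2 * k + 1)) × Sym2 (Fin (2 * k + 1)))}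
    (h : IsOddCover (2 * k + 1) m P) : k ^ 2 + 1 ≤ m := by
  have hle := lower_even (k := k) (by omega) h
  rcases Nat.lt_or_ge (k ^ 2) m with hlt | hge
  · exact hlt
  exfalso
  have hm : m = k ^ 2 := le_antisymm hge hle
  obtain ⟨h1, h2⟩ := h
  choose A B C D hA hB hAB hC hD hCD hP using h1
  have hmpos : 0 < m := by rw [hm]; positivity
  let i : Fin m := ⟨0, hmpos⟩
  have key : ∀ v : Fin (2 * k + 1), ∑ x : {x : Fin (2 * k + 1) // x ≠ v}, ind (A i) x = 1 := by
    intro v
    refine odd_of_eq (X := {x : Fin (2 * k + 1) // x ≠ v}) (fun i x => ind (A i) x)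
      (fun i x => ind (B i) x) (fun i x => ind (C i) x)
      (fun i x => ind (D i) x) k ?_ ?_ ?_ ?_ hm i
    · rw [Fintype.card_subtype_compl]; simp
    · intro x y z w hxy hzw
      apply sum_eq_one hP hAB hCD
      apply h2
      · simp only [SimpleGraph.mem_edgeSet, SimpleGraph.top_adj, ne_eq]
        exact fun h => hxy (Subtype.ext h)
      · simp only [SimpleGraph.mem_edgeSet, SimpleGraph.top_adj, ne_eq]
        exact fun h => hzw (Subtype.ext h)
    · intro i x
      have := fun hh => Finset.disjoint_left.mp (hAB i) (show (x : Fin (2 * k + 1)) ∈ A i from hh)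
      simp only [ind]
      by_cases h3 : (x : Fin (2 * k + 1)) ∈ A i <;> simp_all
    · intro i x
      have := fun hh => Finset.disjoint_left.mp (hCD i) (show (x : Fin (2 * k + 1)) ∈ C i from hh)
      simp only [ind]
      by_cases h3 : (x : Fin (2 * k + 1)) ∈ C i <;> simp_all
  have key2 : ∀ v, ∑ x, ind (A i) x = 1 + ind (A i) v := by
    intro v
    rw [← key v, ← Finset.sum_erase_add _ _ (Finset.mem_univ v)]
    congr 1
    rw [← Finset.sum_subtype (Finset.univ.erase v) (p := fun x => x ≠ v) (by simp)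
      (fun x => ind (A i) x)]
  obtain ⟨v, hv⟩ := hA i
  obtain ⟨w, hw⟩ := hB i
  have e1 := key2 v
  have e2 := key2 w
  have hw' : w ∉ A i := Finset.disjoint_right.mp (hAB i) hw
  rw [e1] at e2
  simp only [ind, hv, hw', if_true, if_false] at e2
  exact absurd e2 (by decide)

end Gen

end Pool.Agent.OddCover
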