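import Pool.Agent.OddCover.Defs

/-!
Odd covers of `K_n` by complete bipartite graphs (constructions of helper45 and helper87) and the
odd covers of the square of `E(K_n)` they give.
-/

set_option autoImplicit false

open Finset

namespace Pool.Agent.OddCover

/-! ### Upper bound -/

/-- a tournament on four points all of whose out-degrees are odd -/
def tour (α β : Fin 4) : ZMod 2 :=
  if (α = 0 ∧ β ≠ 0) ∨ (α = 1 ∧ β = 2) ∨ (α = 2 ∧ β = 3) ∨ (α = 3 ∧ β = 1) then 1 else 0

/-- a tournament on `4 t` points all of whose out-degrees are odd -/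
def arc {t : ℕ} (j l : Fin t × Fin 4) : ZMod 2 :=
  if j.1 < l.1 then 1 else if j.1 = l.1 then tour j.2 l.2 else 0

lemma tour_add : ∀ α β : Fin 4, α ≠ β → tour α β + tour β α = 1 := by decide

lemma tour_sum : ∀ α : Fin 4, ∑ β, tour α β = 1 := by decide

lemma tour_self : ∀ α : Fin 4, tour α α = 0 := by decide

lemma arc_self {t : ℕ} (j : Fin t × Fin 4) : arc j j = 0 := by
  simp [arc, tour_self]

lemma arc_add {t : ℕ} (j l : Fin t × Fin 4) (h : j ≠ l) : arc j l + arc l j = 1 := by
  unfold arc
  rcases lt_trichotomy j.1 l.1 with h1 | h1 | h1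
  · simp [h1, h1.ne', not_lt.mpr h1.le]
  · have : j.2 ≠ l.2 := fun h2 => h (Prod.ext h1 h2)
    simp [h1, tour_add _ _ this]
  · simp [h1, h1.ne', not_lt.mpr h1.le]

lemma arc_sum {t : ℕ} (j : Fin t × Fin 4) : ∑ l, arc j l = 1 := by
  rw [Fintype.sum_prod_type, Finset.sum_eq_single j.1]
  · simp only [arc, lt_irrefl, if_false, if_true]
    exact tour_sum j.2
  · intro u _ hu
    rcases lt_or_gt_of_ne hu with h1 | h1
    · simp [arc, not_lt.mpr h1.le, h1.ne']
    · simp only [arc, h1, if_true]
      decide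
  · simp

/-- first letter -/
def letA {t : ℕ} (l : Fin t × Fin 4) (v : (Fin t × Fin 4) × ZMod 2) : ZMod 2 :=
  if v.1 = l then 0 else 1 + arc v.1 l + v.2

/-- second letter -/
def letB {t : ℕ} (l : Fin t × Fin 4) (v : (Fin t × Fin 4) × ZMod 2) : ZMod 2 :=
  if v.1 = l then 0 else arc v.1 l + v.2

lemma zmod2_aux (p : ZMod 2) : (1 + p) * p = 0 := by revert p; decide

lemma letA_mul_letB {t : ℕ} (l : Fin t × Fin 4) (v : (Fin t × Fin 4) × ZMod 2) :
    letA l v * letB l v = 0 := by
  unfold letA letB
  by_cases h : v.1 = l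
  · simp [h]
  · simp only [h, if_false]
    rw [add_assoc]; exact zmod2_aux _

lemma zmod2_aux2 (p q r s : ZMod 2) :
    (1 + p + r) * (q + s) + (p + r) * (1 + q + s) = (p + q) + (r + s) := by
  revert p q r s; decide

lemma zmod2_aux3 : ∀ r s : ZMod 2, r ≠ s → r + s = 1 := by decide

lemma zmod2_aux4 : ∀ p q r s : ZMod 2, p + q = 1 →
    1 + 1 + 0 - (q + (r + s)) - (p + (r + s)) = 1 := by decide

lemma letters_sum {t : ℕ} (v w : (Fin t × Fin 4) × ZMod 2) (h : v ≠ w) :
    ∑ l, (letA l v * letB l w + letB l v * letA l w) = 1 := by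
  obtain ⟨j, r⟩ := v
  obtain ⟨j', s⟩ := w
  have two : (2 : ZMod 2) = 0 := rfl
  have hterm : ∀ l, letA l (j, r) * letB l (j', s) + letB l (j, r) * letA l (j', s)
      = if j = l ∨ j' = l then 0 else (arc j l + arc j' l) + (r + s) := by
    intro l
    unfold letA letB
    by_cases h1 : j = l
    · simp [h1]
    · by_cases h2 : j' = l
      · simp [h2]
      · simp only [h1, h2, if_false, or_self]
        exact zmod2_aux2 _ _ _ _
  rw [Finset.sum_congr rfl fun l _ => hterm l]
  by_cases hj : j = j'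
  · subst hj
    have hrs : r ≠ s := fun hrs => h (by rw [hrs])
    have hrs' : r + s = 1 := zmod2_aux3 r s hrs
    have : ∀ l, (if j = l ∨ j = l then (0 : ZMod 2) else (arc j l + arc j l) + (r + s))
        = 1 - if j = l then 1 else 0 := by
      intro l
      by_cases h1 : j = l
      · simp [h1]
      · have : arc j l + arc j l = 0 := by rw [← two_mul, two, zero_mul]
        simp [h1, this, hrs']
    rw [Finset.sum_congr rfl fun l _ => this l, Finset.sum_sub_distrib]
    simp only [Finset.sum_const, Finset.card_univ, Fintype.card_prod, Fintype.card_fin,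
      nsmul_eq_mul, mul_one, Nat.cast_mul, Finset.sum_ite_eq, Finset.mem_univ, if_true]
    have : ((4 : ℕ) : ZMod 2) = 0 := rfl
    rw [this, mul_zero]; decide
  · have : ∀ l, (if j = l ∨ j' = l then (0 : ZMod 2) else (arc j l + arc j' l) + (r + s))
        = (arc j l + arc j' l) + (r + s)
          - (if j = l then (arc j' j + (r + s)) else 0)
          - (if j' = l then (arc j j' + (r + s)) else 0) := by
      intro l
      by_cases h1 : j = l
      · subst h1
        have : ¬ j' = j := fun h => hj h.symm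
        simp [this, arc_self]
      · by_cases h2 : j' = l
        · subst h2
          simp [h1, arc_self]
        · simp [h1, h2]
    rw [Finset.sum_congr rfl fun l _ => this l, Finset.sum_sub_distrib, Finset.sum_sub_distrib,
      Finset.sum_add_distrib, Finset.sum_add_distrib, arc_sum, arc_sum]
    simp only [Finset.sum_const, Finset.card_univ, Fintype.card_prod, Fintype.card_fin,
      nsmul_eq_mul, Nat.cast_mul, Finset.sum_ite_eq, Finset.mem_univ, if_true]
    have h4 : ((4 : ℕ) : ZMod 2) = 0 := rfl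
    have h5 := arc_add j j' hj
    rw [h4, mul_zero, zero_mul]
    exact zmod2_aux4 _ _ _ _ h5

/-- `a`, `b` are the letters of `|ι|` pairs of disjoint subsets of `X` such that every pair of
distinct points of `X` is separated by an odd number of the pairs. -/
def Good {ι X : Type*} [Fintype ι] (a b : ι → X → ZMod 2) : Prop :=
  (∀ i x, a i x * b i x = 0) ∧ ∀ x y, x ≠ y → ∑ i, (a i x * b i y + b i x * a i y) = 1

open Classical in
lemma upper_good {ι X : Type*} [Fintype ι] [Fintype X] {a b : ι → X → ZMod 2} (hab : Good a b)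
    {n : ℕ} (hn : n ≤ Fintype.card X) :
    ∃ m, m ≤ (Fintype.card ι) ^ 2 ∧ ∃ P : Fin m → Set (Sym2 (Fin n) × Sym2 (Fin n)),
      IsOddCover n m P := by
  have hcard : Fintype.card (Fin n) ≤ Fintype.card X := by simpa using hn
  obtain ⟨g⟩ := Function.Embedding.nonempty_of_card_le hcard
  let A : ι → Finset (Fin n) := fun l => Finset.univ.filter fun x => a l (g x) = 1
  let B : ι → Finset (Fin n) := fun l => Finset.univ.filter fun x => b l (g x) = 1
  have hdisj : ∀ l, Disjoint (A l) (B l) := by
    intro l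
    rw [Finset.disjoint_left]
    intro x hx hx'
    simp only [A, B, Finset.mem_filter, Finset.mem_univ, true_and] at hx hx'
    have := hab.1 l (g x)
    rw [hx, hx'] at this
    exact absurd this (by decide)
  have z2 : ∀ p : ZMod 2, (if p = 1 then (1 : ZMod 2) else 0) = p := by decide
  have hindA : ∀ l x, ind (A l) x = a l (g x) := by
    intro l x
    simp only [ind, A, Finset.mem_filter, Finset.mem_univ, true_and]
    exact z2 _
  have hindB : ∀ l x, ind (B l) x = b l (g x) := by
    intro l x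
    simp only [ind, B, Finset.mem_filter, Finset.mem_univ, true_and]
    exact z2 _
  have hsum : ∀ x y : Fin n, x ≠ y →
      ∑ l, (if s(x, y) ∈ biclique (A l) (B l) then (1 : ZMod 2) else 0) = 1 := by
    intro x y hxy
    refine Eq.trans ?_ (hab.2 (g x) (g y) (fun h => hxy (g.injective h)))
    refine Finset.sum_congr rfl fun l _ => ?_
    rw [ind_biclique _ _ (hdisj l), hindA, hindA, hindB, hindB]
  let I : Finset (ι × ι) := Finset.univ.filter fun p =>
    (A p.1).Nonempty ∧ (B p.1).Nonempty ∧ (A p.2).Nonempty ∧ (B p.2).Nonempty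
  let ε : I ≃ Fin I.card := I.equivFin
  refine ⟨I.card, ?_, fun i => biclique (A (ε.symm i).1.1) (B (ε.symm i).1.1) ×ˢ
    biclique (A (ε.symm i).1.2) (B (ε.symm i).1.2), ?_, ?_⟩
  · calc I.card ≤ (Finset.univ : Finset (ι × ι)).card :=
        Finset.card_le_univ _
      _ = (Fintype.card ι) ^ 2 := by
        simp only [Finset.card_univ, Fintype.card_prod]; ring
  · intro i
    have hi := (ε.symm i).2
    simp only [I, Finset.mem_filter, Finset.mem_univ, true_and] at hi
    exact ⟨_, _, _, _, hi.1, hi.2.1, hdisj _, hi.2.2.1, hi.2.2.2, hdisj _, rfl⟩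
  · intro e he f hf
    induction e using Sym2.ind with
    | _ x y =>
    induction f using Sym2.ind with
    | _ z w =>
    simp only [SimpleGraph.mem_edgeSet, SimpleGraph.top_adj, ne_eq] at he hf
    rw [← ZMod.natCast_eq_one_iff_odd, Nat.card_eq_fintype_card, Fintype.card_subtype,
      Finset.card_filter, Nat.cast_sum]
    have h1 : ∀ p : ι × ι, p ∉ I →
        (if s(x, y) ∈ biclique (A p.1) (B p.1) then (1 : ZMod 2) else 0) *
        (if s(z, w) ∈ biclique (A p.2) (B p.2) then (1 : ZMod 2) else 0) = 0 := by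
      intro p hp
      by_contra hne
      apply hp
      have hx : s(x, y) ∈ biclique (A p.1) (B p.1) := by
        by_contra hh; simp [hh] at hne
      have hz : s(z, w) ∈ biclique (A p.2) (B p.2) := by
        by_contra hh; simp [hh] at hne
      obtain ⟨u, hu, v, hv, _⟩ := hx
      obtain ⟨u', hu', v', hv', _⟩ := hz
      simp only [I, Finset.mem_filter, Finset.mem_univ, true_and]
      exact ⟨⟨u, hu⟩, ⟨v, hv⟩, ⟨u', hu'⟩, ⟨v', hv'⟩⟩
    have h2 : ∀ i : Fin I.card, (((if (s(x, y), s(z, w)) ∈
          biclique (A (ε.symm i).1.1) (B (ε.symm i).1.1) ×ˢ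
          biclique (A (ε.symm i).1.2) (B (ε.symm i).1.2) then 1 else 0 : ℕ)) : ZMod 2)
        = (fun p : I => (if s(x, y) ∈ biclique (A p.1.1) (B p.1.1) then (1 : ZMod 2) else 0) *
        (if s(z, w) ∈ biclique (A p.1.2) (B p.1.2) then (1 : ZMod 2) else 0)) (ε.symm i) := by
      intro i
      by_cases h3 : s(x, y) ∈ biclique (A (ε.symm i).1.1) (B (ε.symm i).1.1) <;>
        by_cases h4 : s(z, w) ∈ biclique (A (ε.symm i).1.2) (B (ε.symm i).1.2) <;>
        simp [h3, h4]
    rw [Finset.sum_congr rfl fun i _ => h2 i, Equiv.sum_comp ε.symm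
      (fun p : I => (if s(x, y) ∈ biclique (A p.1.1) (B p.1.1) then (1 : ZMod 2) else 0) *
        (if s(z, w) ∈ biclique (A p.1.2) (B p.1.2) then (1 : ZMod 2) else 0)),
      Finset.sum_coe_sort I (fun p => (if s(x, y) ∈ biclique (A p.1) (B p.1) then (1 : ZMod 2)
        else 0) * (if s(z, w) ∈ biclique (A p.2) (B p.2) then (1 : ZMod 2) else 0)),
      Finset.sum_subset (Finset.subset_univ I) (fun p _ hp => h1 p hp),
      Fintype.sum_prod_type]
    have h3 := Finset.sum_mul_sum Finset.univ Finset.univ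
      (fun l => if s(x, y) ∈ biclique (A l) (B l) then (1 : ZMod 2) else 0)
      (fun l => if s(z, w) ∈ biclique (A l) (B l) then (1 : ZMod 2) else 0)
    rw [hsum x y he, hsum z w hf, one_mul] at h3
    exact h3.symm

/-- There are `k` pairs of disjoint subsets of an `n`-set that separate every pair of distinct
points an odd number of times. -/
def PC (n k : ℕ) : Prop := ∃ a b : Fin k → Fin n → ZMod 2, Good a b

lemma PC.of_good {ι X : Type*} [Fintype ι] [Fintype X] {a b : ι → X → ZMod 2} (hab : Good a b)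
    {n k : ℕ} (hn : Fintype.card X = n) (hk : Fintype.card ι = k) : PC n k := by
  classical
  let e : Fin k ≃ ι := (Fintype.equivFinOfCardEq hk).symm
  let g : Fin n ≃ X := (Fintype.equivFinOfCardEq hn).symm
  refine ⟨fun i x => a (e i) (g x), fun i x => b (e i) (g x), fun i x => hab.1 _ _, ?_⟩
  intro x y hxy
  have := hab.2 (g x) (g y) (fun h => hxy (g.injective h))
  rw [← this]
  exact Equiv.sum_comp e (fun i => a i (g x) * b i (g y) + b i (g x) * a i (g y))

lemma upper_PC {n k N : ℕ} (h : PC N k) (hn : n ≤ N) :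
    ∃ m, m ≤ k ^ 2 ∧ ∃ P : Fin m → Set (Sym2 (Fin n) × Sym2 (Fin n)), IsOddCover n m P := by
  obtain ⟨a, b, hab⟩ := h
  simpa using upper_good hab (n := n) (by simpa using hn)

lemma PC_eight (t : ℕ) : PC (8 * t) (4 * t) := by
  refine PC.of_good (ι := Fin t × Fin 4) (X := (Fin t × Fin 4) × ZMod 2) (a := letA) (b := letB)
    ⟨fun l v => letA_mul_letB l v, fun v w h => letters_sum v w h⟩ ?_ ?_
  · simp only [Fintype.card_prod, Fintype.card_fin, ZMod.card]; ring
  · simp only [Fintype.card_prod, Fintype.card_fin]; ring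

/-! ### Substitution -/

/-- the `j`-th binary digit -/
def bit (w : ℕ) (j : ℕ) : ZMod 2 := if w.testBit j then 1 else 0

/-- the word that replaces the letter `(p, q)` -/
def preA (p q : ZMod 2) : ℕ := if p = 1 then 37 else if q = 1 then 74 else 400

/-- the word that replaces the letter `(p, q)` -/
def preB (p q : ZMod 2) : ℕ := if p = 1 then 136 else if q = 1 then 272 else 103

/-- the sixteen further words -/
def newA (j : Fin 16) : ℕ :=
  ![3, 6, 12, 24, 48, 96, 192, 384, 257, 148, 296, 81, 162, 324, 137, 274] j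

/-- the sixteen further words -/
def newB (j : Fin 16) : ℕ :=
  ![352, 193, 386, 261, 11, 22, 44, 88, 176, 33, 66, 132, 264, 17, 34, 68] j

lemma pre_mul : ∀ p q : ZMod 2, ∀ r : Fin 9, bit (preA p q) r * bit (preB p q) r = 0 := by
  decide +kernel

lemma new_mul : ∀ j : Fin 16, ∀ r : Fin 9, bit (newA j) r * bit (newB j) r = 0 := by
  decide +kernel

lemma pre_pre : ∀ p q p' q' : ZMod 2, p * q = 0 → p' * q' = 0 →
    ∑ r : Fin 9, (bit (preA p q) r * bit (preB p' q') r + bit (preB p q) r * bit (preA p' q') r)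
      = p * q' + q * p' := by
  decide +kernel

lemma pre_new : ∀ p q : ZMod 2, ∀ j : Fin 16,
    ∑ r : Fin 9, (bit (preA p q) r * bit (newB j) r + bit (preB p q) r * bit (newA j) r) = 1 := by
  decide +kernel

lemma new_new : ∀ i j : Fin 16, i ≠ j →
    ∑ r : Fin 9, (bit (newA i) r * bit (newB j) r + bit (newB i) r * bit (newA j) r) = 1 := by
  decide +kernel

/-- letters of the substituted system -/
def subA {l n : ℕ} (a b : Fin (l + 1) → Fin n → ZMod 2) :
    (Fin 9 ⊕ Fin l) → (Fin n ⊕ Fin 16) → ZMod 2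
  | Sum.inl r, Sum.inl x => bit (preA (a 0 x) (b 0 x)) r
  | Sum.inl r, Sum.inr j => bit (newA j) r
  | Sum.inr s, Sum.inl x => a s.succ x
  | Sum.inr _, Sum.inr _ => 0

/-- letters of the substituted system -/
def subB {l n : ℕ} (a b : Fin (l + 1) → Fin n → ZMod 2) :
    (Fin 9 ⊕ Fin l) → (Fin n ⊕ Fin 16) → ZMod 2
  | Sum.inl r, Sum.inl x => bit (preB (a 0 x) (b 0 x)) r
  | Sum.inl r, Sum.inr j => bit (newB j) r
  | Sum.inr s, Sum.inl x => b s.succ x
  | Sum.inr _, Sum.inr _ => 0

lemma PC.sub {n l : ℕ} (h : PC n (l + 1)) : PC (n + 16) (l + 9) := by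
  obtain ⟨a, b, h1, h2⟩ := h
  refine PC.of_good (ι := Fin 9 ⊕ Fin l) (X := Fin n ⊕ Fin 16) (a := subA a b) (b := subB a b)
    ⟨?_, ?_⟩ (by simp) (by simp [add_comm])
  · rintro (r | s) (x | j)
    · exact pre_mul _ _ _
    · exact new_mul _ _
    · exact h1 _ _
    · exact mul_zero _
  · rintro (x | i) (y | j) hxy
    · have hne : x ≠ y := fun h => hxy (by rw [h])
      rw [Fintype.sum_sum_type]
      simp only [subA, subB]
      rw [pre_pre _ _ _ _ (h1 0 x) (h1 0 y)]
      have := h2 x y hne
      rw [Fin.sum_univ_succ] at this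
      exact this
    · rw [Fintype.sum_sum_type]
      simp only [subA, subB, mul_zero, add_zero, Finset.sum_const_zero]
      exact pre_new _ _ _
    · rw [Fintype.sum_sum_type]
      simp only [subA, subB, zero_mul, add_zero, Finset.sum_const_zero]
      have := pre_new (a 0 y) (b 0 y) i
      rw [← this]
      refine Finset.sum_congr rfl fun r _ => ?_
      ring
    · have hne : i ≠ j := fun h => hxy (by rw [h])
      rw [Fintype.sum_sum_type]
      simp only [subA, subB, mul_zero, add_zero, Finset.sum_const_zero]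
      exact new_new i j hne

lemma PC_two : PC 2 1 := by
  refine ⟨fun _ x => if x = 0 then 1 else 0, fun _ x => if x = 1 then 1 else 0, ?_, ?_⟩
  · decide
  · decide

/-- a cyclic system on 26 points -/
def oneA (x : Fin 26) : ℕ :=
  ![1, 2, 4, 8, 16, 32, 64, 128, 256, 512, 1024, 2048, 4096, 101, 202, 404, 808, 1616, 3232, 6464,
    4737, 1283, 2566, 5132, 2073, 4146] x

/-- a cyclic system on 26 points -/
def oneB (x : Fin 26) : ℕ :=
  ![7840, 7489, 6787, 5383, 2575, 5150, 2109, 4218, 245, 490, 980, 1960, 3920, 1946, 3892, 7784,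
    7377, 6563, 4935, 1679, 3358, 6716, 5241, 2291, 4582, 973] x

lemma one_mul_one : ∀ r : Fin 13, ∀ x : Fin 26, bit (oneA x) r * bit (oneB x) r = 0 := by
  decide +kernel

lemma one_one : ∀ x y : Fin 26, x ≠ y →
    ∑ r : Fin 13, (bit (oneA x) r * bit (oneB y) r + bit (oneB x) r * bit (oneA y) r) = 1 := by
  decide +kernel

lemma PC_twentysix : PC 26 13 :=
  ⟨fun r x => bit (oneA x) r, fun r x => bit (oneB x) r, one_mul_one, one_one⟩

/-- `n/2` complete bipartite graphs form an odd cover of `K_n` for all `n ≡ 2 mod 8`, `n ≠ 10`. -/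
lemma PC_two_mod_eight (n : ℕ) (h : n % 8 = 2) (h10 : n ≠ 10) : PC n (n / 2) := by
  induction n using Nat.strong_induction_on with
  | _ n ih =>
    rcases Nat.lt_or_ge n 18 with h1 | h1
    · have : n = 2 := by omega
      subst this
      exact PC_two
    · by_cases h26 : n = 26
      · subst h26
        exact PC_twentysix
      · obtain ⟨n', rfl⟩ : ∃ n', n = n' + 16 := ⟨n - 16, by omega⟩
        have := ih n' (by omega) (by omega) (by omega)
        obtain ⟨l, hl⟩ : ∃ l, n' / 2 = l + 1 := ⟨n' / 2 - 1, by omega⟩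
        rw [hl] at this
        have h3 : (n' + 16) / 2 = l + 9 := by omega
        rw [h3]
        exact this.sub

lemma PC_exact (n : ℕ) (h : n % 8 = 0 ∨ n % 8 = 2) (h10 : n ≠ 10) : PC n (n / 2) := by
  rcases h with h | h
  · obtain ⟨t, rfl⟩ : ∃ t, n = 8 * t := ⟨n / 8, by omega⟩
    have h2 : 8 * t / 2 = 4 * t := by omega
    rw [h2]
    exact PC_eight t
  · exact PC_two_mod_eight n h h10

/-- a system on 5 points -/
def fiveA (x : Fin 5) : ℕ :=
  ![4, 3, 1, 0, 6] x

/-- a system on 5 points -/
def fiveB (x : Fin 5) : ℕ :=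
  ![3, 4, 2, 5, 0] x

lemma five_mul : ∀ r : Fin 3, ∀ x : Fin 5, bit (fiveA x) r * bit (fiveB x) r = 0 := by
  decide +kernel

lemma five_odd : ∀ x y : Fin 5, x ≠ y →
    ∑ r : Fin 3, (bit (fiveA x) r * bit (fiveB y) r + bit (fiveB x) r * bit (fiveA y) r) = 1 := by
  decide +kernel

lemma PC_five : PC 5 3 :=
  ⟨fun r x => bit (fiveA x) r, fun r x => bit (fiveB x) r, five_mul, five_odd⟩

/-- a system on 11 points -/
def elevenA (x : Fin 11) : ℕ :=
  ![16, 22, 1, 2, 0, 12, 32, 21, 4, 52, 24] x

/-- a system on 11 points -/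
def elevenB (x : Fin 11) : ℕ :=
  ![43, 40, 36, 5, 55, 0, 6, 10, 24, 9, 39] x

lemma eleven_mul : ∀ r : Fin 6, ∀ x : Fin 11, bit (elevenA x) r * bit (elevenB x) r = 0 := by
  decide +kernel

lemma eleven_odd : ∀ x y : Fin 11, x ≠ y →
    ∑ r : Fin 6, (bit (elevenA x) r * bit (elevenB y) r + bit (elevenB x) r * bit (elevenA y) r) = 1 := by
  decide +kernel

lemma PC_eleven : PC 11 6 :=
  ⟨fun r x => bit (elevenA x) r, fun r x => bit (elevenB x) r, eleven_mul, eleven_odd⟩

/-- a system on 13 points -/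
def thirteenA (x : Fin 13) : ℕ :=
  ![81, 98, 76, 37, 11, 22, 2, 4, 1, 68, 65, 66, 7] x

/-- a system on 13 points -/
def thirteenB (x : Fin 13) : ℕ :=
  ![32, 8, 16, 80, 96, 72, 76, 81, 98, 26, 52, 41, 56] x

lemma thirteen_mul : ∀ r : Fin 7, ∀ x : Fin 13, bit (thirteenA x) r * bit (thirteenB x) r = 0 := by
  decide +kernel

lemma thirteen_odd : ∀ x y : Fin 13, x ≠ y →
    ∑ r : Fin 7, (bit (thirteenA x) r * bit (thirteenB y) r + bit (thirteenB x) r * bit (thirteenA y) r) = 1 := by
  decide +kernel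

lemma PC_thirteen : PC 13 7 :=
  ⟨fun r x => bit (thirteenA x) r, fun r x => bit (thirteenB x) r, thirteen_mul, thirteen_odd⟩

/-- fewer points -/
lemma PC.mono {n N k : ℕ} (h : PC N k) (hn : n ≤ N) : PC n k := by
  obtain ⟨a, b, h1, h2⟩ := h
  exact ⟨fun i x => a i (Fin.castLE hn x), fun i x => b i (Fin.castLE hn x),
    fun i x => h1 i _, fun x y hxy => h2 _ _ fun h => hxy (Fin.castLE_injective hn h)⟩

/-- one more point, one more pair -/
lemma PC.star {n k : ℕ} (h : PC n k) : PC (n + 1) (k + 1) := by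
  obtain ⟨a, b, h1, h2⟩ := h
  refine PC.of_good (ι := Option (Fin k)) (X := Option (Fin n))
    (a := fun i x => match i, x with
      | some i, some x => a i x
      | some _, none => 0
      | none, some _ => 1
      | none, none => 0)
    (b := fun i x => match i, x with
      | some i, some x => b i x
      | some _, none => 0
      | none, some _ => 0
      | none, none => 1) ⟨?_, ?_⟩ (by simp) (by simp)
  · rintro (_ | i) (_ | x)
    · simp
    · simp
    · simp
    · exact h1 i x
  · rintro (_ | x) (_ | y) hxy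
    · exact absurd rfl hxy
    · rw [Fintype.sum_option]; simp
    · rw [Fintype.sum_option]; simp
    · have hne : x ≠ y := fun h => hxy (by rw [h])
      rw [Fintype.sum_option]
      simpa using h2 x y hne

/-- `(n + 1) / 2` complete bipartite graphs form an odd cover of `K_n` for all odd `n ≥ 3`. -/
lemma PC_odd (n : ℕ) (h : n % 2 = 1) (h3 : 3 ≤ n) : PC n ((n + 1) / 2) := by
  induction n using Nat.strong_induction_on with
  | _ n ih =>
    rcases Nat.lt_or_ge n 19 with h1 | h1
    · have h16 : PC 16 8 := PC_eight 2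
      have h8 : PC 8 4 := PC_eight 1
      have hc : n = 3 ∨ n = 5 ∨ n = 7 ∨ n = 9 ∨ n = 11 ∨ n = 13 ∨ n = 15 ∨ n = 17 := by omega
      rcases hc with rfl | rfl | rfl | rfl | rfl | rfl | rfl | rfl
      · exact PC_two.star
      · exact PC_five
      · exact h8.mono (by norm_num)
      · exact h8.star
      · exact PC_eleven
      · exact PC_thirteen
      · exact h16.mono (by norm_num)
      · exact h16.star
    · obtain ⟨n', rfl⟩ : ∃ n', n = n' + 16 := ⟨n - 16, by omega⟩
      have := ih n' (by omega) (by omega) (by omega)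
      obtain ⟨l, hl⟩ : ∃ l, (n' + 1) / 2 = l + 1 := ⟨(n' + 1) / 2 - 1, by omega⟩
      rw [hl] at this
      have h3 : (n' + 16 + 1) / 2 = l + 9 := by omega
      rw [h3]
      exact this.sub

/-- `⌊n/2⌋ + 1` complete bipartite graphs suffice for every `n ≥ 2`. -/
lemma PC_general (n : ℕ) (h : 2 ≤ n) : PC n (n / 2 + 1) := by
  rcases Nat.mod_two_eq_zero_or_one n with h1 | h1
  · have := PC_odd (n + 1) (by omega) (by omega)
    have h2 : (n + 1 + 1) / 2 = n / 2 + 1 := by omega
    rw [h2] at this
    exact this.mono (by omega)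
  · have := PC_odd n h1 (by omega)
    have h2 : (n + 1) / 2 = n / 2 + 1 := by omega
    rwa [h2] at this

end Pool.Agent.OddCover
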